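import Pool.Agent.H29.FX.Targets
import Pool.Agent.H23.AF.Targets

/-!
# Violators of large exponent (MP_7ecdd4_nt): targets, second part
-/

set_option autoImplicit false

open Finset

namespace Pool.Agent.H29.FX

open Pool.Agent.H38.AE.Statement

/-- The admissible triples whose product has radical at most `Y`, with largest entry between
`Y ^ M` and `H`. -/
def Violating (M Y H : ℝ) : Set (Fin 3 → ℤ) :=
  {x | Admissible x ∧ (radical (∏ i, x i) : ℝ) ≤ Y ∧ (∃ i, Y ^ M < |(x i : ℝ)|) ∧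
    ∀ i, |(x i : ℝ)| ≤ H}

/-- (FNG) few exponents outside the primes dividing some `Q ≤ Y ^ θ`. -/
def T_FNG : Prop :=
  ∀ (k : ℕ) (η : ℝ), 0 < η → ∃ M : ℝ, 0 < M ∧ ∀ A θ : ℝ, 0 ≤ θ → ∃ C : ℝ, 0 < C ∧
    ∀ Y : ℝ, 2 ≤ Y → (FewExponents k M (Y ^ θ) Y (Y ^ A)).Finite ∧
      ((FewExponents k M (Y ^ θ) Y (Y ^ A)).ncard : ℝ) ≤ C * Y ^ (θ + η)

/-- (W5B) the energy weight for large moduli. -/
def T_W5B : Prop :=
  ∀ Q R : ℝ, 1 ≤ R → R ^ 2 ≤ Q → Pool.Agent.H23.AF.w5 Q R ≤ 4 * R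

/-- the product of the primes with exponent `e` in `x` -/
def ze (x e : ℕ) : ℕ := ∏ p ∈ x.primeFactors.filter fun p => x.factorization p = e, p

/-- (SPE) the spread part of an entry. -/
def T_SPE : Prop :=
  ∀ (x E : ℕ) (T Z : ℝ), 1 ≤ x → 1 ≤ E → 1 ≤ T → 1 ≤ Z → ∃ s : ℕ, 1 ≤ s ∧ s ∣ x ∧
    (Z ≤ s → ∃ q : ℕ, 1 ≤ q ∧ q ∣ s ∧ Z ≤ q ∧
      (Pool.Agent.H38.AE.rad q : ℝ) ≤ T * Z ^ (1 / (E : ℝ))) ∧
    ((s : ℝ) < Z → (Pool.Agent.H38.AE.rad s : ℝ) ≤ Z ^ (1 / (E : ℝ))) ∧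
    ∀ p ∈ x.primeFactors, ¬ p ∣ s → x.factorization p ≤ E ∨ T < ze x (x.factorization p)

/-- (CNX) the number of exponents outside the spread parts. -/
def T_CNX : Prop :=
  ∀ (E m : ℕ) (T Y : ℝ) (x : Fin 3 → ℤ) (s : Fin 3 → ℕ), Admissible x → 1 < T → Y ≤ T ^ m →
    (radical (∏ i, x i) : ℝ) ≤ Y → (∀ i, 1 ≤ s i ∧ s i ∣ (x i).natAbs) →
    (∀ i, ∀ p ∈ (x i).natAbs.primeFactors, ¬ p ∣ s i →
      (x i).natAbs.factorization p ≤ E ∨ T < ze (x i).natAbs ((x i).natAbs.factorization p)) →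
    (exponents (∏ i, Pool.Agent.H38.AE.rad (s i)) (∏ i, x i)).card ≤ E + m

/-- (EXA) all violators of large exponent. -/
def T_EXA : Prop :=
  ∀ ε : ℝ, 0 < ε → ∃ M : ℝ, 0 < M ∧ ∀ A : ℝ, ∃ C : ℝ, 0 < C ∧ ∀ Y : ℝ, 2 ≤ Y →
    (Violating M Y (Y ^ A)).Finite ∧
      ((Violating M Y (Y ^ A)).ncard : ℝ) ≤ C * Y ^ (2 / 5 + ε)

end Pool.Agent.H29.FX
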