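import Pool.Agent.H29.FX.Targets

/-!
# Near-units (MP_7ecdd4_nt): flows and towers modulo `p ^ s`, `p = Q ^ j`
-/

set_option autoImplicit false

open Finset MvPolynomial

namespace Pool.Agent.H29.FX

/-- divisors of `Q ^ v` modulo `(Q ^ j) ^ s` -/
def Nu (Q j s v : ℕ) (c : ZMod ((Q ^ j) ^ s)) : Prop :=
  ∃ κ : ZMod ((Q ^ j) ^ s), c * κ = (Q : ZMod ((Q ^ j) ^ s)) ^ v

/-- (FOQ) the flow of one derivation is an evaluation, general `p`. -/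
def T_FOQ : Prop :=
  ∀ (n p s : ℕ) (D : Dr n) (t : ZMod (p ^ s)) (x : Fin n → ZMod (p ^ s)) (f : Pl n),
    1 ≤ p → (∀ l : ℕ, l.Prime → l ∣ p → s ≤ l) → Nl p s t →
    aeval (fl p s D t x) f = ∑ m ∈ range s, t ^ m * iv p s m * aeval x ((fun g => D g)^[m] f)

/-- (FCQ) the flows of several derivations, general `p`. -/
def T_FCQ : Prop :=
  ∀ (n p s : ℕ) (D : Fin n → Dr n) (t : Fin n → ZMod (p ^ s)) (x : Fin n → ZMod (p ^ s))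
    (f : Pl n), 1 ≤ p → (∀ l : ℕ, l.Prime → l ∣ p → s ≤ l) → (∀ v, Nl p s (t v)) →
    aeval (fls p s D t x) f = ts p s D t x f

/-- (HSQ) polynomials with a near-unit as linear coefficient. -/
def T_HSQ : Prop :=
  ∀ (Q j s v : ℕ) (c : ℕ → ZMod ((Q ^ j) ^ s)), 2 ≤ Q → v < j → Nu Q j s v (c 1) →
    (∀ (b : ℕ) (y : ZMod ((Q ^ j) ^ s)), ∃ t : ZMod ((Q ^ j) ^ s),
      ∑ m ∈ Ico 1 s, ((Q : ZMod ((Q ^ j) ^ s)) ^ (j + b) * t) ^ m * c m =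
        (Q : ZMod ((Q ^ j) ^ s)) ^ (j + b + v) * y) ∧
    ∀ (b : ℕ) (t : ZMod ((Q ^ j) ^ s)), Nl (Q ^ j) s t →
      (Q : ZMod ((Q ^ j) ^ s)) ^ b * ∑ m ∈ Ico 1 s, t ^ m * c m = 0 →
      (Q : ZMod ((Q ^ j) ^ s)) ^ (b + v) * t = 0

/-- (LOQ) the points of a tower modulo `(Q ^ j) ^ s` in one residue class are reached by the
flows, up to torsion. -/
def T_LOQ : Prop :=
  ∀ (n Q j s v : ℕ) (L : Tw n) (x y : Fin n → ZMod ((Q ^ j) ^ s)), 2 ≤ Q → v < j →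
    (∀ l : ℕ, l.Prime → l ∣ Q → s ≤ l) → Gd L →
    (∀ w, ∃ a : ZMod ((Q ^ j) ^ s),
      y w - x w = (Q : ZMod ((Q ^ j) ^ s)) ^ (j + (L.length + 1) * v) * a) →
    (∀ q ∈ L, aeval x q.1 = 0 ∧ aeval y q.1 = 0) → Nu Q j s v (aeval x (TJ L)) →
    ∃ t : Fin n → ZMod ((Q ^ j) ^ s), (∀ w, Nl (Q ^ j) s (t w)) ∧
      (∀ w, w ∉ TI L → t w = 0) ∧
      ∀ w, (Q : ZMod ((Q ^ j) ^ s)) ^ (2 * v * L.length) *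
        (fls (Q ^ j) s (TD L) t x w - y w) = 0

/-- (NUQ) near-units from valuations. -/
def T_NUQ : Prop :=
  ∀ (Q v S : ℕ) (N : ℤ), Squarefree Q → (∀ l : ℕ, l.Prime → l ∣ Q → ¬ (l : ℤ) ^ (v + 1) ∣ N) →
    ∃ κ : ℤ, (Q : ℤ) ^ S ∣ N * κ - (Q : ℤ) ^ v

/-- (LCQ) the Taylor formula for integral points near a tower. -/
def T_LCQ : Prop :=
  ∀ (n Q j s v : ℕ) (L : Tw n) (x y : Fin n → ℤ), 2 ≤ Q → Squarefree Q → v < j →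
    (∀ l : ℕ, l.Prime → l ∣ Q → s ≤ l) → Gd L →
    (∀ q ∈ L, ((Q : ℤ) ^ j) ^ s ∣ eval x q.1 ∧ ((Q : ℤ) ^ j) ^ s ∣ eval y q.1) →
    (∀ w, (Q : ℤ) ^ (j + (n + 1) * v) ∣ y w - x w) →
    (∀ l : ℕ, l.Prime → l ∣ Q → ¬ (l : ℤ) ^ (v + 1) ∣ eval x (TJ L)) →
    ∃ t : Fin n → ℤ, (∀ w, w ∉ TI L → t w = 0) ∧ ∀ f : Pl n,
      (Q : ZMod ((Q ^ j) ^ s)) ^ (2 * v * n) * (((eval y f : ℤ) : ZMod ((Q ^ j) ^ s)) -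
        ∑ α ∈ Fintype.piFinset (fun _ : Fin n => range s),
        (∏ w, ((Q : ZMod ((Q ^ j) ^ s)) ^ j * ((t w : ℤ) : ZMod ((Q ^ j) ^ s))) ^ α w *
          iv (Q ^ j) s (α w)) * ((eval x (dw (TD L) α f) : ℤ) : ZMod ((Q ^ j) ^ s))) = 0

/-- (CLQ) the class lemma with near-units: the equation `g` holds only modulo `(Q ^ j) ^ s`. -/
def T_CLQ : Prop :=
  ∀ (n v : ℕ) (δ : ℝ), 0 < δ → ∃ (s B₁ : ℕ) (Y₀ : ℝ), 1 ≤ s ∧ 2 ≤ Y₀ ∧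
    ∀ (Y : ℝ) (L : Tw n) (g : Pl n) (i : Fin n) (Q j : ℕ) (x₀ : Fin n → ℤ)
    (S : Finset (Fin n → ℤ)), Y₀ ≤ Y → 2 ≤ Q → Squarefree Q → v < j → Gd L → i ∈ TI L →
    (∀ l : ℕ, l.Prime → l ∣ Q → s ≤ l) → Y ^ δ ≤ ((Q : ℝ) ^ j) → x₀ ∈ S →
    (∀ l : ℕ, l.Prime → l ∣ Q → ¬ (l : ℤ) ^ (v + 1) ∣ eval x₀ (TJ ((g, i) :: L))) →
    (∀ y ∈ S, (∀ w, 1 ≤ y w) ∧ ∏ w, (y w : ℝ) ≤ Y ∧
      (∀ w, (Q : ℤ) ^ (j + (n + 1) * v) ∣ y w - x₀ w) ∧ On L y ∧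
      ((Q : ℤ) ^ j) ^ s ∣ eval y g) →
    ∃ G : Pl n, G ≠ 0 ∧ G.vars ⊆ TI L ∧ Cx Y B₁ G ∧ ∀ y ∈ S, eval y G = 0

end Pool.Agent.H29.FX
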