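import Mathlib

/-!
# Triples with few exponents (MP_7ecdd4_nt): definitions of the proof
-/

set_option autoImplicit false

open Finset MvPolynomial

namespace Pool.Agent.H29.FX

/-- integer polynomials in `n` variables -/
abbrev Pl (n : ℕ) := MvPolynomial (Fin n) ℤ

/-- derivations of the polynomial ring -/
abbrev Dr (n : ℕ) := Derivation ℤ (Pl n) (Pl n)

/-! ### Ordered words and towers -/

/-- the ordered word `D_0 ^ (α 0) ... D_(n-1) ^ (α (n-1))` applied to `f` -/
noncomputable def dw {n : ℕ} (D : Fin n → Dr n) (α : Fin n → ℕ) (f : Pl n) : Pl n :=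
  (List.finRange n).foldr (fun i h => (fun g => D i g)^[α i] h) f

/-- towers: lists of pairs (equation, removed variable), the last pair first -/
abbrev Tw (n : ℕ) := List (Pl n × Fin n)

/-- the remaining variables -/
def TI {n : ℕ} : Tw n → Finset (Fin n)
  | [] => univ
  | q :: L => (TI L).erase q.2

/-- the tangent derivations -/
noncomputable def TD {n : ℕ} : Tw n → Fin n → Dr n
  | [] => fun i => pderiv i
  | q :: L => fun j => (TD L q.2 q.1) • TD L j - (TD L j q.1) • TD L q.2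

/-- the determinant -/
noncomputable def TJ {n : ℕ} : Tw n → Pl n
  | [] => 1
  | q :: L => TJ L * TD L q.2 q.1

/-- every removed variable was present -/
def Gd {n : ℕ} : Tw n → Prop
  | [] => True
  | q :: L => q.2 ∈ TI L ∧ Gd L

/-- iterated partial derivatives along a list -/
noncomputable def pl {n : ℕ} (l : List (Fin n)) (f : Pl n) : Pl n :=
  l.foldr (fun i h => pderiv i h) f

/-! ### Complexity -/

/-- the sum of the absolute values of the coefficients -/
noncomputable def nm {n : ℕ} (f : Pl n) : ℝ := ∑ m ∈ f.support, |((coeff m f : ℤ) : ℝ)|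

/-- polynomials of complexity at most `B` -/
structure Cx {n : ℕ} (Y : ℝ) (B : ℕ) (f : Pl n) : Prop where
  deg : f.totalDegree ≤ B
  le : nm f ≤ Y ^ B

/-! ### Flows modulo `p ^ s` -/

/-- multiples of `p` -/
def Nl (p s : ℕ) (t : ZMod (p ^ s)) : Prop := ∃ t' : ZMod (p ^ s), t = (p : ZMod (p ^ s)) * t'

/-- `1 / m!` modulo `p ^ s` -/
noncomputable def iv (p s m : ℕ) : ZMod (p ^ s) := ((m.factorial : ℕ) : ZMod (p ^ s))⁻¹

/-- the flow of `D` for the time `t` -/
noncomputable def fl {n : ℕ} (p s : ℕ) (D : Dr n) (t : ZMod (p ^ s))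
    (x : Fin n → ZMod (p ^ s)) : Fin n → ZMod (p ^ s) := fun v =>
  ∑ m ∈ range s, t ^ m * iv p s m * aeval x ((fun g => D g)^[m] (X v))

/-- the flows of `D 0`, ..., `D (n-1)`, one after the other -/
noncomputable def fls {n : ℕ} (p s : ℕ) (D : Fin n → Dr n) (t : Fin n → ZMod (p ^ s))
    (x : Fin n → ZMod (p ^ s)) : Fin n → ZMod (p ^ s) :=
  (List.finRange n).foldl (fun y i => fl p s (D i) (t i) y) x

/-- the Taylor sum -/
noncomputable def ts {n : ℕ} (p s : ℕ) (D : Fin n → Dr n) (t : Fin n → ZMod (p ^ s))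
    (x : Fin n → ZMod (p ^ s)) (f : Pl n) : ZMod (p ^ s) :=
  ∑ α ∈ Fintype.piFinset (fun _ : Fin n => range s),
    (∏ v, t v ^ α v * iv p s (α v)) * aeval x (dw D α f)

/-! ### The equations -/

/-- the monomial of the entry `a` -/
noncomputable def en {n : ℕ} (pt : Fin n → Fin 3) (e : Fin n → ℕ) (a : Fin 3) : Pl n :=
  ∏ v ∈ univ.filter (fun v => pt v = a), X v ^ e v

/-- the equation -/
noncomputable def eqn {n : ℕ} (pt : Fin n → Fin 3) (e : Fin n → ℕ) (u : Fin 3 → ℤ) : Pl n :=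
  ∑ a, C (u a) * en pt e a

/-- the logarithmic derivative of the entry `a`, times the product of all variables -/
noncomputable def lg {n : ℕ} (pt : Fin n → Fin 3) (e : Fin n → ℕ) (D : Dr n) (a : Fin 3) :
    Pl n :=
  ∑ v ∈ univ.filter (fun v => pt v = a), C (e v : ℤ) * D (X v) * ∏ w ∈ univ.erase v, X w

/-- the solutions of large height -/
structure Sol {n : ℕ} (pt : Fin n → Fin 3) (e : Fin n → ℕ) (u : Fin 3 → ℤ) (X M H : ℝ)
    (z : Fin n → ℤ) : Prop where
  pos : ∀ v, 1 ≤ z v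
  le : ∏ v, (z v : ℝ) ≤ X
  sum : eval z (eqn pt e u) = 0
  cop : ∀ a b, a ≠ b → IsCoprime (u a * eval z (en pt e a)) (u b * eval z (en pt e b))
  big : ∃ a, X ^ M < |((u a * eval z (en pt e a) : ℤ) : ℝ)|
  sml : ∀ a, |((u a * eval z (en pt e a) : ℤ) : ℝ)| ≤ H

/-- the additional equations: the equation itself, and the words of differences of
logarithmic derivatives -/
noncomputable def gt {n s : ℕ} (pt : Fin n → Fin 3) (e : Fin n → ℕ) (u : Fin 3 → ℤ)
    (L : Tw n) : Option (Fin n × Fin 3 × Fin 3 × (Fin n → Fin s)) → Pl n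
  | none => eqn pt e u
  | some o => dw (TD L) (fun v => o.2.2.2 v)
      (lg pt e (TD L o.1) o.2.1 - lg pt e (TD L o.1) o.2.2.1)

/-- flat points: the differences of the logarithmic derivatives vanish to the order `s` -/
def Flat {n : ℕ} (pt : Fin n → Fin 3) (e : Fin n → ℕ) (L : Tw n) (s : ℕ) (z : Fin n → ℤ) :
    Prop :=
  ∀ (i : Fin n) (a b : Fin 3) (α : Fin n → ℕ), ∑ v, α v < s →
    eval z (dw (TD L) α (lg pt e (TD L i) a - lg pt e (TD L i) b)) = 0

/-- the points of a tower -/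
def On {n : ℕ} (L : Tw n) (z : Fin n → ℤ) : Prop := ∀ q ∈ L, eval z q.1 = 0

/-- the bound for the solutions on a tower with `m` remaining variables -/
def RecS (n : ℕ) (δ : ℝ) (m B : ℕ) : Prop :=
  ∃ M c X₀ : ℝ, 0 < M ∧ 0 < c ∧ 2 ≤ X₀ ∧ ∀ (X H : ℝ) (pt : Fin n → Fin 3) (e : Fin n → ℕ)
    (u : Fin 3 → ℤ) (L : Tw n) (S : Finset (Fin n → ℤ)), X₀ ≤ X → H ≤ Real.exp (X ^ c) →
    (∀ v, 1 ≤ e v ∧ (e v : ℝ) ≤ X) → (∀ a, u a ≠ 0) → Gd L → (TI L).card = m →
    (∀ q ∈ L, Cx X B q.1) → (∀ z ∈ S, Sol pt e u X M H z ∧ On L z ∧ eval z (TJ L) ≠ 0) →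
    Set.InjOn (fun z a => eval z (en pt e a)) (S : Set (Fin n → ℤ)) →
    (S.card : ℝ) ≤ X ^ (((m : ℝ) + 1) * (2 * n + 4) * δ)

end Pool.Agent.H29.FX
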