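import Mathlib
import Pool.Agent.H38.AE.Statement

/-!
# Triples with few exponents (MP_7ecdd4_nt): definitions of the statement
-/

set_option autoImplicit false

open Finset

namespace Pool.Agent.H29.FX

open Pool.Agent.H38.AE.Statement

/-- `x i` is `u i` times a product of `k` powers `z i j ^ e i j` of positive integers, and the
product of all the bases `z i j` is at most `Y`. -/
def Powers (k : ℕ) (u : Fin 3 → ℤ) (Y : ℝ) (x : Fin 3 → ℤ) : Prop :=
  ∃ z e : Fin 3 → Fin k → ℕ, (∀ i j, 1 ≤ z i j ∧ 1 ≤ e i j) ∧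
    (∀ i, x i = u i * ∏ j, (z i j : ℤ) ^ e i j) ∧ ∏ i, ∏ j, (z i j : ℝ) ≤ Y

/-- The exponents of the primes not dividing `Q` in the factorization of `m`. -/
def exponents (Q : ℕ) (m : ℤ) : Finset ℕ :=
  (m.natAbs.primeFactors.filter fun p => ¬ p ∣ Q).image fun p => m.natAbs.factorization p

/-- The admissible triples of the form `x i = u i * (product of k powers)`, product of the bases
at most `Y`, with largest entry between `Y ^ M` and `H`. -/
def OfPowers (k : ℕ) (u : Fin 3 → ℤ) (M Y H : ℝ) : Set (Fin 3 → ℤ) :=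
  {x | Admissible x ∧ Powers k u Y x ∧ (∃ i, Y ^ M < |(x i : ℝ)|) ∧ ∀ i, |(x i : ℝ)| ≤ H}

/-- The admissible triples whose product has radical at most `Y`, with largest entry between
`Y ^ M` and `H`, such that outside some integer `Q ≤ R` the product has at most `k` distinct
exponents. -/
def FewExponents (k : ℕ) (M R Y H : ℝ) : Set (Fin 3 → ℤ) :=
  {x | Admissible x ∧ (radical (∏ i, x i) : ℝ) ≤ Y ∧ (∃ i, Y ^ M < |(x i : ℝ)|) ∧
    (∀ i, |(x i : ℝ)| ≤ H) ∧ ∃ Q : ℕ, 1 ≤ Q ∧ (Q : ℝ) ≤ R ∧ (exponents Q (∏ i, x i)).card ≤ k}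

end Pool.Agent.H29.FX
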