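import Pool.Agent.H29.FX.Defs
import Pool.Agent.H29.FX.Stmt

/-!
# Triples with few exponents (MP_7ecdd4_nt): exact targets
-/

set_option autoImplicit false

open Finset MvPolynomial

namespace Pool.Agent.H29.FX

open Pool.Agent.H38.AE.Statement

/-! ### Words -/

/-- (DFM) a derivation in terms of the partial derivatives. -/
def T_DFM : Prop :=
  ∀ (n : ℕ) (D : Dr n) (f : Pl n), D f = ∑ v, pderiv v f * D (X v)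

/-- (DWB) additivity, outermost and innermost letters of ordered words. -/
def T_DWB : Prop :=
  ∀ (n : ℕ) (D : Fin n → Dr n), (∀ f, dw D 0 f = f) ∧
    (∀ α f g, dw D α (f + g) = dw D α f + dw D α g) ∧
    (∀ α f g, dw D α (f - g) = dw D α f - dw D α g) ∧
    (∀ (β : Fin n → ℕ) (i : Fin n) (f : Pl n), (∀ v, i < v → β v = 0) →
      dw D (β + Pi.single i 1) f = dw D β (D i f)) ∧
    (∀ (β : Fin n → ℕ) (i : Fin n) (f : Pl n), (∀ v, v < i → β v = 0) →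
      dw D (β + Pi.single i 1) f = D i (dw D β f))

/-- (LEI) the Leibniz rule for ordered words. -/
def T_LEI : Prop :=
  ∀ (n : ℕ) (D : Fin n → Dr n) (α : Fin n → ℕ) (f g : Pl n),
    dw D α (f * g) = ∑ β ∈ Fintype.piFinset (fun v => range (α v + 1)),
      (∏ v, (((α v).choose (β v) : ℕ) : Pl n)) * (dw D β f * dw D (fun v => α v - β v) g)

/-- (LDW) equal logarithmic derivatives to the order `s` give equal derivatives. -/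
def T_LDW : Prop :=
  ∀ (n s : ℕ) (D : Fin n → Dr n) (x : Fin n → ℤ) (A K P : Pl n) (g : Fin n → Pl n),
    (∀ i, P * (K * D i A - A * D i K) = A * K * g i) → eval x P ≠ 0 → eval x K ≠ 0 →
    (∀ i α, ∑ v, α v < s → eval x (dw D α (g i)) = 0) →
    ∀ α, ∑ v, α v ≤ s → eval x (dw D α A) * eval x K = eval x (dw D α K) * eval x A

/-! ### Towers and flows -/

/-- (ALG) the algebra of towers. -/
def T_ALG : Prop :=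
  ∀ (n : ℕ) (L : Tw n), Gd L →
    (∀ j ∈ TI L, ∀ k ∈ TI L, TD L j (X k) = if j = k then TJ L else 0) ∧
    (∀ j, j ∉ TI L → TD L j = 0) ∧ (∀ q ∈ L, ∀ j, TD L j q.1 = 0) ∧
    (∀ G : Pl n, G.vars ⊆ TI L → ∀ j ∈ TI L, TD L j G = TJ L * pderiv j G) ∧
    (TI L).card + L.length = n

/-- (FLO) the flow of one derivation is an evaluation. -/
def T_FLO : Prop :=
  ∀ (n p s : ℕ) (D : Dr n) (t : ZMod (p ^ s)) (x : Fin n → ZMod (p ^ s)) (f : Pl n),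
    p.Prime → s ≤ p → Nl p s t →
    aeval (fl p s D t x) f = ∑ m ∈ range s, t ^ m * iv p s m * aeval x ((fun g => D g)^[m] f)

/-- (FLC) the flows of several derivations. -/
def T_FLC : Prop :=
  ∀ (n p s : ℕ) (D : Fin n → Dr n) (t : Fin n → ZMod (p ^ s)) (x : Fin n → ZMod (p ^ s))
    (f : Pl n), p.Prime → s ≤ p → (∀ v, Nl p s (t v)) →
    aeval (fls p s D t x) f = ts p s D t x f

/-- (HSB) polynomials with a unit as linear coefficient permute the multiples of `p`. -/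
def T_HSB : Prop :=
  ∀ (p s : ℕ) (c : ℕ → ZMod (p ^ s)), p.Prime → IsUnit (c 1) →
    (∀ y, Nl p s y → ∃ t, Nl p s t ∧ ∑ m ∈ Ico 1 s, t ^ m * c m = y) ∧
    ∀ t, Nl p s t → ∑ m ∈ Ico 1 s, t ^ m * c m = 0 → t = 0

/-- (LOR) the points of a tower modulo `p ^ s` in one residue class modulo `p` are reached by
the flows. -/
def T_LOR : Prop :=
  ∀ (n p s : ℕ) (L : Tw n) (x y : Fin n → ZMod (p ^ s)), p.Prime → s ≤ p → Gd L →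
    (∀ v, Nl p s (y v - x v)) → (∀ q ∈ L, aeval x q.1 = 0 ∧ aeval y q.1 = 0) →
    IsUnit (aeval x (TJ L)) → ∃ t : Fin n → ZMod (p ^ s), (∀ v, Nl p s (t v)) ∧
      (∀ v, v ∉ TI L → t v = 0) ∧ fls p s (TD L) t x = y

/-- (LOC) the Taylor formula for the integral points of a tower. -/
def T_LOC : Prop :=
  ∀ (n p s : ℕ) (L : Tw n) (x y : Fin n → ℤ), p.Prime → s ≤ p → Gd L → On L x → On L y →
    (∀ v, (p : ℤ) ∣ y v - x v) → ¬ (p : ℤ) ∣ eval x (TJ L) →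
    ∃ t : Fin n → ℤ, (∀ v, v ∉ TI L → t v = 0) ∧ ∀ f : Pl n,
      ((eval y f : ℤ) : ZMod (p ^ s)) = ∑ α ∈ Fintype.piFinset (fun _ : Fin n => range s),
        (∏ v, ((p : ZMod (p ^ s)) * ((t v : ℤ) : ZMod (p ^ s))) ^ α v * iv p s (α v)) *
          ((eval x (dw (TD L) α f) : ℤ) : ZMod (p ^ s))

/-! ### The determinant method -/

/-- (DTD) divisibility of a determinant. -/
def T_DTD : Prop :=
  ∀ (N : ℕ) (κ : Type) (_ : Fintype κ) (q : ℤ) (T : Matrix (Fin N) κ ℤ)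
    (V : Matrix κ (Fin N) ℤ) (E : Matrix (Fin N) (Fin N) ℤ),
    q ^ (N - Fintype.card κ) ∣ (T * V + q • E).det

/-- (CNT) the number of exponent vectors of small degree. -/
def T_CNT : Prop :=
  ∀ (κ : Type) (_ : Fintype κ) (_ : DecidableEq κ) (s r : ℕ),
    (univ.filter (fun α : κ → Fin s => ∑ v, (α v : ℕ) < r)).card ≤ r ^ Fintype.card κ

/-- (RNK) a relation with small coefficients from vanishing determinants. -/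
def T_RNK : Prop :=
  ∀ (N : ℕ) (T : ℝ) (κ : Type) (Y : Finset κ) (f : Fin N → κ → ℤ), 1 ≤ N → 1 ≤ T →
    (∀ j, ∀ y ∈ Y, |(f j y : ℝ)| ≤ T) →
    (∀ y : Fin N → κ, (∀ i, y i ∈ Y) → (Matrix.of fun i j => f j (y i)).det = 0) →
    ∃ G : Fin N → ℤ, G ≠ 0 ∧ (∀ j, |(G j : ℝ)| ≤ N.factorial * T ^ N) ∧
      ∀ y ∈ Y, ∑ j, G j * f j y = 0

/-- (CLS) the points of a tower in one class modulo `p` lie on a new hypersurface of bounded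
complexity, whatever the last equation of the tower is. -/
def T_CLS : Prop :=
  ∀ (n : ℕ) (δ : ℝ), 0 < δ → ∃ (B₁ : ℕ) (Y₀ : ℝ), 2 ≤ Y₀ ∧ ∀ (Y : ℝ) (L : Tw n) (g : Pl n)
    (i : Fin n) (p : ℕ) (x₀ : Fin n → ℤ) (S : Finset (Fin n → ℤ)), Y₀ ≤ Y → Gd L → i ∈ TI L →
    p.Prime → Y ^ δ ≤ p → x₀ ∈ S → ¬ (p : ℤ) ∣ eval x₀ (TJ ((g, i) :: L)) →
    (∀ y ∈ S, (∀ v, 1 ≤ y v) ∧ ∏ v, (y v : ℝ) ≤ Y ∧ (∀ v, (p : ℤ) ∣ y v - x₀ v) ∧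
      On ((g, i) :: L) y) →
    ∃ G : Pl n, G ≠ 0 ∧ G.vars ⊆ TI L ∧ Cx Y B₁ G ∧ ∀ y ∈ S, eval y G = 0

/-- (DER) a derivative which vanishes with a non-vanishing first derivative. -/
def T_DER : Prop :=
  ∀ (n B : ℕ) (Y : ℝ) (G : Pl n) (x : Fin n → ℤ), 2 ≤ Y → G ≠ 0 → Cx Y B G → eval x G = 0 →
    ∃ (f : Fin B → Fin n) (b : Fin (B + 1)) (i : Fin n),
      eval x (pl ((List.ofFn f).take b) G) = 0 ∧
      eval x (pderiv i (pl ((List.ofFn f).take b) G)) ≠ 0 ∧ i ∈ G.vars ∧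
      (pl ((List.ofFn f).take b) G).vars ⊆ G.vars ∧
      Cx Y (B + B * B) (pl ((List.ofFn f).take b) G)

/-! ### Complexity -/

/-- (NRM) the norm of polynomials. -/
def T_NRM : Prop :=
  ∀ n : ℕ, (∀ f : Pl n, 0 ≤ nm f) ∧ (∀ f g : Pl n, nm (f + g) ≤ nm f + nm g) ∧
    (∀ f : Pl n, nm (-f) = nm f) ∧ (∀ f g : Pl n, nm (f * g) ≤ nm f * nm g) ∧
    (∀ a : ℤ, nm (C a : Pl n) = |(a : ℝ)|) ∧ (∀ v : Fin n, nm (X v : Pl n) = 1) ∧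
    (∀ (v : Fin n) (f : Pl n), nm (pderiv v f) ≤ f.totalDegree * nm f ∧
      (pderiv v f).totalDegree ≤ f.totalDegree) ∧
    (∀ (f : Pl n) (Y : ℝ) (x : Fin n → ℤ), 1 ≤ Y → (∀ v, |(x v : ℝ)| ≤ Y) →
      |((eval x f : ℤ) : ℝ)| ≤ nm f * Y ^ f.totalDegree)

/-- (CXT) the complexity of the derivations of a tower. -/
def T_CXT : Prop :=
  ∀ n B : ℕ, ∃ B' : ℕ, ∀ (Y : ℝ) (L : Tw n), 2 ≤ Y → Gd L → (∀ q ∈ L, Cx Y B q.1) →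
    (∀ i v, Cx Y B' (TD L i (X v))) ∧ Cx Y B' (TJ L)

/-- (CXW) the complexity of words. -/
def T_CXW : Prop :=
  ∀ (n B : ℕ) (Y : ℝ) (D : Fin n → Dr n) (α : Fin n → ℕ) (f : Pl n), 2 ≤ Y →
    (∀ i v, Cx Y B (D i (X v))) → Cx Y B f →
    (dw D α f).totalDegree ≤ B * (1 + ∑ v, α v) ∧
    nm (dw D α f) ≤ Y ^ B * (n * Y ^ B * (B * (1 + ∑ v, (α v : ℝ)))) ^ (∑ v, α v)

/-- (CXL) the complexity of the logarithmic derivatives. -/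
def T_CXL : Prop :=
  ∀ n B : ℕ, ∃ B' : ℕ, ∀ (Y : ℝ) (D : Dr n) (pt : Fin n → Fin 3) (e : Fin n → ℕ), 2 ≤ Y →
    (∀ v, (e v : ℝ) ≤ Y) → (∀ v, Cx Y B (D (X v))) →
    (∀ a, Cx Y B' (lg pt e D a)) ∧ ∀ a b, Cx Y B' (lg pt e D a - lg pt e D b)

/-- (BND) bounds for the values at a solution. -/
def T_BND : Prop :=
  ∀ n B : ℕ, ∃ B' : ℕ, ∀ (Y M H : ℝ) (s : ℕ) (pt : Fin n → Fin 3) (e : Fin n → ℕ)
    (u : Fin 3 → ℤ) (L : Tw n) (z : Fin n → ℤ), 2 ≤ Y → 0 < M → (s : ℝ) ≤ Y → Gd L →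
    (∀ q ∈ L, Cx Y B q.1) → (∀ v, 1 ≤ e v ∧ (e v : ℝ) ≤ Y) → Sol pt e u Y M H z →
    |((eval z (TJ L) : ℤ) : ℝ)| ≤ Y ^ B' ∧
    (∀ i a, |((eval z (lg pt e (TD L i) a) : ℤ) : ℝ)| ≤ Y ^ B') ∧
    ∀ (o : Option (Fin n × Fin 3 × Fin 3 × (Fin n → Fin s))) (j : Fin n),
      |((eval z (TD L j (gt pt e u L o)) : ℤ) : ℝ)| ≤ H * Y ^ (B' * (s + 1))

/-! ### The cases -/

/-- (PID) the logarithmic derivatives. -/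
def T_PID : Prop :=
  ∀ (n : ℕ) (pt : Fin n → Fin 3) (e : Fin n → ℕ) (D : Dr n) (a : Fin 3), (∀ v, 1 ≤ e v) →
    (∏ v, X v) * D (en pt e a) = en pt e a * lg pt e D a

/-- (MAS) two relations between three coprime integers. -/
def T_MAS : Prop :=
  ∀ (x l : Fin 3 → ℤ) (K : ℤ), ∑ a, x a = 0 → (∀ a b, a ≠ b → IsCoprime (x a) (x b)) →
    ∑ a, x a * l a = 0 → (∃ a, 2 * K < |x a|) → (∀ a, |l a| ≤ K) → ∀ a b, l a = l b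

/-- (TYP) flat points and points with an additional equation. -/
def T_TYP : Prop :=
  ∀ (n s : ℕ) (pt : Fin n → Fin 3) (e : Fin n → ℕ) (u : Fin 3 → ℤ) (L : Tw n) (Y M H K : ℝ)
    (z : Fin n → ℤ), Gd L → (∀ v, 1 ≤ e v) → Sol pt e u Y M H z →
    (∀ i a, |((eval z (lg pt e (TD L i) a) : ℤ) : ℝ)| ≤ K) → 2 * K ≤ Y ^ M →
    Flat pt e L s z ∨ ∃ (o : Option (Fin n × Fin 3 × Fin 3 × (Fin n → Fin s))) (j : Fin n),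
      j ∈ TI L ∧ eval z (gt pt e u L o) = 0 ∧ eval z (TD L j (gt pt e u L o)) ≠ 0

/-- (FLT) a flat point is alone in its class. -/
def T_FLT : Prop :=
  ∀ (n p s : ℕ) (pt : Fin n → Fin 3) (e : Fin n → ℕ) (L : Tw n) (H : ℝ) (x y : Fin n → ℤ),
    p.Prime → s ≤ p → Gd L → (∀ v, 1 ≤ e v) → On L x → On L y →
    (∀ v, (p : ℤ) ∣ y v - x v) → ¬ (p : ℤ) ∣ eval x (TJ L) → Flat pt e L s x →
    (∀ v, 1 ≤ x v ∧ 1 ≤ y v) →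
    (∀ a b, a ≠ b → IsCoprime (eval x (en pt e a)) (eval x (en pt e b)) ∧
      IsCoprime (eval y (en pt e a)) (eval y (en pt e b))) →
    (∀ a, ((eval x (en pt e a) : ℤ) : ℝ) ≤ H ∧ ((eval y (en pt e a) : ℤ) : ℝ) ≤ H) →
    H ^ 2 < (p : ℝ) ^ s → ∀ a, eval x (en pt e a) = eval y (en pt e a)

/-! ### The count -/

/-- (PRI) a prime which does not divide a given integer. -/
def T_PRI : Prop :=
  ∃ Y₀ : ℝ, 2 ≤ Y₀ ∧ ∀ (Y : ℝ) (N : ℤ), Y₀ ≤ Y → N ≠ 0 → Real.log |(N : ℝ)| ≤ Y →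
    ∃ p : ℕ, p.Prime ∧ Y ≤ p ∧ (p : ℝ) ≤ Y ^ 2 ∧ ¬ (p : ℤ) ∣ N

/-- (NUM) the parameters. -/
def T_NUM : Prop :=
  ∀ (n : ℕ) (δ c : ℝ), 0 < δ → δ ≤ 1 → 0 < c → c ≤ δ / (8 * (n + 1)) → ∃ Y₀ : ℝ, 2 ≤ Y₀ ∧
    ∀ Y : ℝ, Y₀ ≤ Y → ((⌊Y ^ (2 * c)⌋₊ : ℕ) : ℝ) ≤ Y ^ δ ∧
      Real.exp (Y ^ c) ^ 2 < (Y ^ δ) ^ ⌊Y ^ (2 * c)⌋₊ ∧
      1 + (n : ℝ) * (1 + 9 * n * ((⌊Y ^ (2 * c)⌋₊ : ℕ) : ℝ) ^ n) ≤ Y ^ (δ / 2)

/-- (CVR) every solution belongs to a class. -/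
def T_CVR : Prop :=
  ∀ (n B : ℕ) (δ c : ℝ), 0 < δ → δ ≤ 1 → 0 < c → c ≤ δ / (8 * (n + 1)) →
    ∃ M Y₀ : ℝ, 0 < M ∧ 2 ≤ Y₀ ∧ ∀ (Y M' H : ℝ) (pt : Fin n → Fin 3) (e : Fin n → ℕ)
      (u : Fin 3 → ℤ) (L : Tw n) (z : Fin n → ℤ), Y₀ ≤ Y → M ≤ M' →
      H ≤ Real.exp (Y ^ c) → (∀ v, 1 ≤ e v ∧ (e v : ℝ) ≤ Y) → Gd L →
      (∀ q ∈ L, Cx Y B q.1) → Sol pt e u Y M' H z → eval z (TJ L) ≠ 0 →
      ∃ p : ℕ, p.Prime ∧ Y ^ δ ≤ p ∧ (p : ℝ) ≤ Y ^ (2 * δ) ∧ ¬ (p : ℤ) ∣ eval z (TJ L) ∧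
        (Flat pt e L ⌊Y ^ (2 * c)⌋₊ z ∨
        ∃ (o : Option (Fin n × Fin 3 × Fin 3 × (Fin n → Fin ⌊Y ^ (2 * c)⌋₊))) (j : Fin n),
          j ∈ TI L ∧ eval z (gt pt e u L o) = 0 ∧
          ¬ (p : ℤ) ∣ eval z (TD L j (gt pt e u L o)))

/-- (CLA) the bound for one class. -/
def T_CLA : Prop :=
  ∀ (n m B : ℕ) (δ : ℝ), 0 < δ → δ ≤ 1 → (∀ B', RecS n δ m B') →
    ∃ M c Y₀ : ℝ, 0 < M ∧ 0 < c ∧ 2 ≤ Y₀ ∧ ∀ (Y M' H : ℝ) (pt : Fin n → Fin 3)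
      (e : Fin n → ℕ) (u : Fin 3 → ℤ) (L : Tw n) (g : Pl n) (j : Fin n) (p : ℕ)
      (x₀ : Fin n → ℤ) (S : Finset (Fin n → ℤ)), Y₀ ≤ Y → M ≤ M' →
      H ≤ Real.exp (Y ^ c) → (∀ v, 1 ≤ e v ∧ (e v : ℝ) ≤ Y) → (∀ a, u a ≠ 0) → Gd L →
      (TI L).card = m + 1 → (∀ q ∈ L, Cx Y B q.1) → j ∈ TI L → p.Prime → Y ^ δ ≤ p →
      (∀ z ∈ S, Sol pt e u Y M' H z ∧ On L z ∧ eval z g = 0 ∧
        ¬ (p : ℤ) ∣ eval z (TJ L) ∧ ¬ (p : ℤ) ∣ eval z (TD L j g) ∧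
        ∀ v, (p : ℤ) ∣ z v - x₀ v) →
      Set.InjOn (fun z a => eval z (en pt e a)) (S : Set (Fin n → ℤ)) →
      (S.card : ℝ) ≤ Y ^ (δ / 2) * Y ^ (((m : ℝ) + 1) * (2 * n + 4) * δ)

/-- (STP) the step of the recursion. -/
def T_STP : Prop :=
  (∀ (n B : ℕ) (δ : ℝ), 0 < δ → δ ≤ 1 → RecS n δ 0 B) ∧
  ∀ (n m B : ℕ) (δ : ℝ), 0 < δ → δ ≤ 1 → (∀ B', RecS n δ m B') → RecS n δ (m + 1) B

/-! ### The final theorem -/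

/-- (FNA) products of `k` powers. -/
def T_FNA : Prop :=
  ∀ (k : ℕ) (η : ℝ), 0 < η → ∃ M c C : ℝ, 0 < M ∧ 0 < c ∧ 0 < C ∧
    ∀ (Y : ℝ) (u : Fin 3 → ℤ), 2 ≤ Y → (OfPowers k u M Y (Real.exp (Y ^ c))).Finite ∧
      ((OfPowers k u M Y (Real.exp (Y ^ c))).ncard : ℝ) ≤ C * Y ^ η

/-- (RPR) the representation by powers. -/
def T_RPR : Prop :=
  ∀ (k Q : ℕ) (Y : ℝ) (x : Fin 3 → ℤ), Admissible x → 1 ≤ Q → (radical (∏ i, x i) : ℝ) ≤ Y →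
    (exponents Q (∏ i, x i)).card ≤ k → ∃ u : Fin 3 → ℤ,
      (∀ i, u i ≠ 0 ∧ |u i| ≤ |x i| ∧ ∀ p : ℕ, p.Prime → (p : ℤ) ∣ u i → p ∣ Q) ∧
      Powers k u Y x

/-- (FNB) few exponents. -/
def T_FNB : Prop :=
  ∀ (k : ℕ) (η : ℝ), 0 < η → ∃ M c C : ℝ, 0 < M ∧ 0 < c ∧ 0 < C ∧
    ∀ Y : ℝ, 2 ≤ Y → (FewExponents k M 1 Y (Real.exp (Y ^ c))).Finite ∧
      ((FewExponents k M 1 Y (Real.exp (Y ^ c))).ncard : ℝ) ≤ C * Y ^ η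

/-- (SUN) integers composed of few primes. -/
def T_SUN : Prop :=
  ∀ ε : ℝ, 0 < ε → ∃ C : ℝ, 0 < C ∧ ∀ (Z : ℝ) (Q : ℕ), 1 ≤ Z → 1 ≤ Q → (Q : ℝ) ≤ Z →
    ∀ S : Finset ℕ, (∀ m ∈ S, 1 ≤ m ∧ (m : ℝ) ≤ Z ∧ ∀ p, p.Prime → p ∣ m → p ∣ Q) →
      (S.card : ℝ) ≤ C * Z ^ ε

/-- (FNC) few exponents outside a small set of primes. -/
def T_FNC : Prop :=
  ∀ (k : ℕ) (η : ℝ), 0 < η → ∃ M : ℝ, 0 < M ∧ ∀ A : ℝ, ∃ C : ℝ, 0 < C ∧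
    ∀ Y : ℝ, 2 ≤ Y → (FewExponents k M (Y ^ (η / 4)) Y (Y ^ A)).Finite ∧
      ((FewExponents k M (Y ^ (η / 4)) Y (Y ^ A)).ncard : ℝ) ≤ C * Y ^ η

end Pool.Agent.H29.FX
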